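import Pool.Agent.Helper92.PV.St

/-!
# Project PV (MP_ad0dc2_nt), module DTB
-/

set_option autoImplicit false
set_option linter.unusedVariables false

open Finset

namespace Pool.Agent.Helper60.PV

open Pool.Agent.Helper92.PV Pool.Agent.Helper92.PU Pool.Agent.Helper92.PW

/-- Module DTB: a determinant bound by multilinear expansion. -/
theorem hDTB : StDTB := by
  intro n N K hK
  have hK0 : (0 : ℝ) ≤ K := le_trans zero_le_one hK
  refine ⟨((N + n : ℕ) : ℝ) ^ n * (K ^ n * ((n.factorial : ℝ) * K ^ n)) + 1, by positivity, ?_⟩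
  intro ρ m A X c hρ hm hX hc hA
  set R : Fin n → Fin n → ℝ := fun i j => A i j - ∑ l, X i l * c l j with hR
  set Y : Fin n → Fin N ⊕ Fin n → ℝ := fun i s => Sum.elim (X i) (R i) s with hY
  set w : Fin N ⊕ Fin n → Fin n → ℝ := fun s => Sum.elim c (fun j => Pi.single j 1) s with hw
  set m' : Fin N ⊕ Fin n → ℝ := fun s => Sum.elim m (fun _ => ρ) s with hm'
  set g : Fin N ⊕ Fin n → ℝ := fun s => Sum.elim (fun l => max 1 (m l / ρ)) (fun _ => 1) s with hg
  have hrow : (A : Fin n → Fin n → ℝ) = fun i => ∑ s, Y i s • w s := by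
    funext i j
    rw [Fintype.sum_sum_type]
    simp only [hY, hw, Sum.elim_inl, Sum.elim_inr, Pi.add_apply, Finset.sum_apply, Pi.smul_apply,
      smul_eq_mul]
    have h1 : ∑ x, R i x * (Pi.single x (1 : ℝ) : Fin n → ℝ) j = R i j := by
      rw [Finset.sum_eq_single j]
      · simp
      · intro b _ hb
        rw [Pi.single_apply, if_neg (Ne.symm hb), mul_zero]
      · intro h
        exact absurd (Finset.mem_univ _) h
    rw [h1, hR]
    ring
  have hdet : A.det = ∑ f : Fin n → Fin N ⊕ Fin n, (∏ i, Y i (f i)) *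
      Matrix.det (Matrix.of fun i => w (f i)) := by
    have h0 : A.det = (Matrix.detRowAlternating : (Fin n → ℝ) [⋀^Fin n]→ₗ[ℝ] ℝ) A := rfl
    rw [h0]
    have h1 : (Matrix.detRowAlternating : (Fin n → ℝ) [⋀^Fin n]→ₗ[ℝ] ℝ) A =
        (Matrix.detRowAlternating : (Fin n → ℝ) [⋀^Fin n]→ₗ[ℝ] ℝ).toMultilinearMap
          (fun i => ∑ s, Y i s • w s) := congrArg _ hrow
    rw [h1, MultilinearMap.map_sum]
    apply Finset.sum_congr rfl
    intro f _
    rw [MultilinearMap.map_smul_univ]
    rfl
  have hm'0 : ∀ s, 0 ≤ m' s := by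
    intro s
    rcases s with l | j
    · exact hm l
    · exact hρ.le
  have hYb : ∀ i s, |Y i s| ≤ K * m' s := by
    intro i s
    rcases s with l | j
    · exact hX i l
    · exact hA i j
  have hg1 : ∀ s, 1 ≤ g s := by
    intro s
    rcases s with l | j
    · exact le_max_left _ _
    · exact le_refl _
  have hmg : ∀ s, m' s ≤ ρ * g s := by
    intro s
    rcases s with l | j
    · show m l ≤ ρ * max 1 (m l / ρ)
      calc m l = ρ * (m l / ρ) := by field_simp
        _ ≤ ρ * max 1 (m l / ρ) := mul_le_mul_of_nonneg_left (le_max_right _ _) hρ.le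
    · show ρ ≤ ρ * 1
      rw [mul_one]
  have hwb : ∀ s j, |w s j| ≤ K := by
    intro s j
    rcases s with l | j'
    · exact hc l j
    · show |(Pi.single j' (1 : ℝ) : Fin n → ℝ) j| ≤ K
      rw [Pi.single_apply]
      split_ifs
      · rw [abs_one]; exact hK
      · rw [abs_zero]; exact hK0
  have hprodg : ∏ s, g s = ∏ l, max 1 (m l / ρ) := by
    rw [Fintype.prod_sum_type]
    simp [hg]
  have hP0 : (0 : ℝ) ≤ ∏ l, max 1 (m l / ρ) :=
    Finset.prod_nonneg fun l _ => le_trans zero_le_one (le_max_left _ _)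
  have hterm : ∀ f : Fin n → Fin N ⊕ Fin n, |(∏ i, Y i (f i)) *
      Matrix.det (Matrix.of fun i => w (f i))| ≤
      (K ^ n * ((n.factorial : ℝ) * K ^ n)) * (ρ ^ n * ∏ l, max 1 (m l / ρ)) := by
    intro f
    by_cases hf : Function.Injective f
    · have h1 : |∏ i, Y i (f i)| ≤ K ^ n * (ρ ^ n * ∏ l, max 1 (m l / ρ)) := by
        rw [Finset.abs_prod]
        calc ∏ i, |Y i (f i)| ≤ ∏ i, (K * (ρ * g (f i))) := by
              apply Finset.prod_le_prod
              · intro i _
                exact abs_nonneg _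
              · intro i _
                exact (hYb i (f i)).trans (mul_le_mul_of_nonneg_left (hmg _) hK0)
          _ = K ^ n * (ρ ^ n * ∏ i, g (f i)) := by
              rw [Finset.prod_mul_distrib, Finset.prod_mul_distrib]
              simp
          _ ≤ K ^ n * (ρ ^ n * ∏ l, max 1 (m l / ρ)) := by
              have h2 : ∏ i, g (f i) ≤ ∏ s, g s := by
                classical
                have h3 : ∏ i, g (f i) = ∏ s ∈ Finset.univ.image f, g s := by
                  rw [Finset.prod_image]
                  intro a _ b _ hab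
                  exact hf hab
                rw [h3, ← Finset.prod_sdiff (Finset.subset_univ (Finset.univ.image f))]
                have h4 : (1 : ℝ) ≤ ∏ s ∈ Finset.univ \ Finset.univ.image f, g s := by
                  have := Finset.prod_le_prod (s := Finset.univ \ Finset.univ.image f)
                    (f := fun _ => (1 : ℝ)) (g := g) (fun _ _ => zero_le_one) (fun s _ => hg1 s)
                  simpa using this
                have h5 : (0 : ℝ) ≤ ∏ s ∈ Finset.univ.image f, g s :=
                  Finset.prod_nonneg fun s _ => le_trans zero_le_one (hg1 s)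
                nlinarith
              rw [hprodg] at h2
              have : (0 : ℝ) ≤ K ^ n := by positivity
              have h6 : (0 : ℝ) ≤ ρ ^ n := by positivity
              exact mul_le_mul_of_nonneg_left (mul_le_mul_of_nonneg_left h2 h6) this
      have h2 : |Matrix.det (Matrix.of fun i => w (f i))| ≤ (n.factorial : ℝ) * K ^ n := by
        have h3 := Matrix.det_le (A := (Matrix.of fun i => w (f i) : Matrix (Fin n) (Fin n) ℝ))
          (abv := AbsoluteValue.abs) (x := K) (fun i j => hwb (f i) j)
        rw [Fintype.card_fin, nsmul_eq_mul] at h3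
        exact h3
      rw [abs_mul]
      calc |∏ i, Y i (f i)| * |Matrix.det (Matrix.of fun i => w (f i))| ≤
          (K ^ n * (ρ ^ n * ∏ l, max 1 (m l / ρ))) * ((n.factorial : ℝ) * K ^ n) :=
            mul_le_mul h1 h2 (abs_nonneg _) (by positivity)
        _ = _ := by ring
    · have h0 : Matrix.det (Matrix.of fun i => w (f i)) = 0 := by
        have h1 : ¬ Function.Injective (fun i => w (f i)) := by
          intro h
          exact hf (fun a b hab => h (by simp only [hab]))
        exact (Matrix.detRowAlternating : (Fin n → ℝ) [⋀^Fin n]→ₗ[ℝ] ℝ).map_eq_zero_of_not_injective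
          (fun i => w (f i)) h1
      rw [h0, mul_zero, abs_zero]
      positivity
  have hcard : (Fintype.card (Fin n → Fin N ⊕ Fin n) : ℝ) = ((N + n : ℕ) : ℝ) ^ n := by
    simp
  calc |A.det| ≤ ∑ f : Fin n → Fin N ⊕ Fin n, |(∏ i, Y i (f i)) *
        Matrix.det (Matrix.of fun i => w (f i))| := by
        rw [hdet]
        exact Finset.abs_sum_le_sum_abs _ _
    _ ≤ ∑ f : Fin n → Fin N ⊕ Fin n,
        (K ^ n * ((n.factorial : ℝ) * K ^ n)) * (ρ ^ n * ∏ l, max 1 (m l / ρ)) :=
        Finset.sum_le_sum fun f _ => hterm f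
    _ = ((N + n : ℕ) : ℝ) ^ n * (K ^ n * ((n.factorial : ℝ) * K ^ n)) *
        (ρ ^ n * ∏ l, max 1 (m l / ρ)) := by
        rw [Finset.sum_const, Finset.card_univ, nsmul_eq_mul, hcard]
        ring
    _ ≤ (((N + n : ℕ) : ℝ) ^ n * (K ^ n * ((n.factorial : ℝ) * K ^ n)) + 1) *
        (ρ ^ n * ∏ l, max 1 (m l / ρ)) := by
        apply mul_le_mul_of_nonneg_right _ (by positivity)
        linarith
    _ = _ := by ring

end Pool.Agent.Helper60.PV
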